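import Pool.Agent.Work.MP_db9399_dn.MLA
import Pool.Agent.Work.MP_db9399_sc.Interface

/-! # MP_db9399: GE lemma (helper75)

A graph in which families of noncritical components cannot exceed their neighbourhood has a
matching which misses exactly one vertex in each of some disjoint critical sets; the missed
vertex of a critical set may be prescribed after the critical sets are known. -/

set_option autoImplicit false

namespace Pool.Agent.Work.MP_db9399_ge.helper75

open Finset Classical
open Pool.Agent.Work.MP_db9399_all (nb)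
open Pool.Agent.Work.MP_db9399_dn (IsMat)
open Pool.Agent.Work.MP_db9399_dn.ML (tutte_fam mem_nb)
open Pool.Agent.Work.MP_db9399_sc (Conn)

universe u v

/-! ## Mendelsohn-Dulmage -/

theorem md {α : Type u} {β : Type v} [Nonempty α] (A A0 : Finset α) (B : Finset β) (r : β → α → Prop)
    (hA0 : A0 ⊆ A)
    (hB : ∀ B' ⊆ B, B'.card ≤ (A.filter (fun a => ∃ b ∈ B', r b a)).card)
    (hA : ∀ A' ⊆ A0, A'.card ≤ (B.filter (fun b => ∃ a ∈ A', r b a)).card) :
    ∃ f : β → α, (∀ b ∈ B, f b ∈ A ∧ r b (f b)) ∧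
      (∀ b ∈ B, ∀ b' ∈ B, f b = f b' → b = b') ∧ ∀ a ∈ A0, ∃ b ∈ B, f b = a := by
  have hBA : B.card ≤ A.card := (hB B (Finset.Subset.refl _)).trans (card_filter_le _ _)
  obtain ⟨m, hm⟩ : ∃ m : ℕ, A.card = B.card + m := ⟨A.card - B.card, by omega⟩
  let t : A → Finset (β ⊕ Fin m) := fun a =>
    (B.filter (fun b => r b a.1)).map Function.Embedding.inl ∪
      (if a.1 ∈ A0 then ∅ else (univ : Finset (Fin m)).map Function.Embedding.inr)
  have hHall : ∀ s : Finset A, s.card ≤ (s.biUnion t).card := by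
    intro s
    obtain ⟨s', hs'⟩ : ∃ s' : Finset α, s' = s.map (Function.Embedding.subtype _) := ⟨_, rfl⟩
    have hcs : s'.card = s.card := by rw [hs', card_map]
    have hs'A : s' ⊆ A := by
      intro a ha
      rw [hs', mem_map] at ha
      obtain ⟨b, _, rfl⟩ := ha
      exact b.2
    have hmem : ∀ a, a ∈ s' → ∃ ha : a ∈ A, (⟨a, ha⟩ : A) ∈ s := by
      intro a ha
      rw [hs', mem_map] at ha
      obtain ⟨b, hb, rfl⟩ := ha
      exact ⟨b.2, hb⟩
    have hN : ((B.filter (fun b => ∃ a ∈ s', r b a)).map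
        (Function.Embedding.inl : β ↪ β ⊕ Fin m)) ⊆ s.biUnion t := by
      intro x hx
      rw [mem_map] at hx
      obtain ⟨b, hb, rfl⟩ := hx
      rw [mem_filter] at hb
      obtain ⟨hb, a, ha, hra⟩ := hb
      obtain ⟨haA, ha⟩ := hmem a ha
      rw [mem_biUnion]
      refine ⟨⟨a, haA⟩, ha, ?_⟩
      apply mem_union_left
      rw [mem_map]
      exact ⟨b, mem_filter.mpr ⟨hb, hra⟩, rfl⟩
    by_cases hall : s' ⊆ A0
    · calc s.card = s'.card := hcs.symm
        _ ≤ _ := hA s' hall
        _ = _ := (card_map _).symm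
        _ ≤ _ := card_le_card hN
    · rw [not_subset] at hall
      obtain ⟨a0, ha0, ha0'⟩ := hall
      obtain ⟨ha0A, ha0s⟩ := hmem a0 ha0
      have hI : (univ : Finset (Fin m)).map (Function.Embedding.inr : Fin m ↪ β ⊕ Fin m)
          ⊆ s.biUnion t := by
        intro x hx
        rw [mem_biUnion]
        refine ⟨⟨a0, ha0A⟩, ha0s, ?_⟩
        apply mem_union_right
        rw [if_neg ha0']
        exact hx
      have h1 : (B.filter (fun b => ∃ a ∈ s', r b a)).card + m ≤ (s.biUnion t).card := by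
        calc (B.filter (fun b => ∃ a ∈ s', r b a)).card + m
            = (((B.filter (fun b => ∃ a ∈ s', r b a)).map
                (Function.Embedding.inl : β ↪ β ⊕ Fin m)) ∪
                (univ : Finset (Fin m)).map (Function.Embedding.inr : Fin m ↪ β ⊕ Fin m)).card := by
              rw [card_union_of_disjoint, card_map, card_map, card_univ, Fintype.card_fin]
              rw [disjoint_left]
              intro x hx hy
              rw [mem_map] at hx hy
              obtain ⟨b, _, rfl⟩ := hx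
              obtain ⟨c, _, hc⟩ := hy
              cases hc
          _ ≤ _ := card_le_card (union_subset hN hI)
      have h2 := hB (B.filter (fun b => ¬ ∃ a ∈ s', r b a)) (filter_subset _ _)
      have h3 : (A.filter (fun a => ∃ b ∈ B.filter (fun b => ¬ ∃ a ∈ s', r b a), r b a)).card
          + s'.card ≤ A.card := by
        rw [← card_union_of_disjoint]
        · exact card_le_card (union_subset (filter_subset _ _) hs'A)
        · rw [disjoint_left]
          intro a ha ha'
          rw [mem_filter] at ha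
          obtain ⟨_, b, hb, hr⟩ := ha
          rw [mem_filter] at hb
          exact hb.2 ⟨a, ha', hr⟩
      have h4 : (B.filter (fun b => ∃ a ∈ s', r b a)).card +
          (B.filter (fun b => ¬ ∃ a ∈ s', r b a)).card = B.card :=
        card_filter_add_card_filter_not _
      omega
  obtain ⟨f, hf, hft⟩ := (Finset.all_card_le_biUnion_card_iff_exists_injective t).mp hHall
  -- `f` is onto `B ⊕ Fin m`
  obtain ⟨Y, hY⟩ : ∃ Y : Finset (β ⊕ Fin m), Y = B.map Function.Embedding.inl ∪
      (univ : Finset (Fin m)).map Function.Embedding.inr := ⟨_, rfl⟩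
  have hYc : Y.card = A.card := by
    rw [hY, card_union_of_disjoint, card_map, card_map, card_univ, Fintype.card_fin, hm]
    rw [disjoint_left]
    intro x hx hy
    rw [mem_map] at hx hy
    obtain ⟨b, _, rfl⟩ := hx
    obtain ⟨c, _, hc⟩ := hy
    cases hc
  have hfY : (univ : Finset A).map ⟨f, hf⟩ ⊆ Y := by
    intro x hx
    rw [mem_map] at hx
    obtain ⟨a, _, rfl⟩ := hx
    have h1 := hft a
    simp only [Function.Embedding.coeFn_mk]
    rw [hY]
    rw [mem_union] at h1 ⊢
    rcases h1 with h1 | h1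
    · left
      rw [mem_map] at h1 ⊢
      obtain ⟨b, hb, hb'⟩ := h1
      exact ⟨b, (mem_filter.mp hb).1, hb'⟩
    · right
      split_ifs at h1 with h2
      · simp at h1
      · exact h1
  have hfY2 : (univ : Finset A).map ⟨f, hf⟩ = Y := by
    apply eq_of_subset_of_card_le hfY
    rw [card_map, hYc, card_univ, Fintype.card_coe]
  have hpre : ∀ b ∈ B, ∃ a : A, f a = Sum.inl b := by
    intro b hb
    have h1 : (Sum.inl b : β ⊕ Fin m) ∈ Y := by
      rw [hY]
      exact mem_union_left _ (mem_map.mpr ⟨b, hb, rfl⟩)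
    rw [← hfY2, mem_map] at h1
    obtain ⟨a, _, ha⟩ := h1
    exact ⟨a, ha⟩
  refine ⟨fun b => if h : ∃ a : A, f a = Sum.inl b then h.choose.1 else Classical.arbitrary α, ?_, ?_, ?_⟩
  · intro b hb
    have h := hpre b hb
    simp only [dif_pos h]
    refine ⟨h.choose.2, ?_⟩
    have h1 := hft h.choose
    rw [h.choose_spec, mem_union] at h1
    rcases h1 with h1 | h1
    · rw [mem_map] at h1
      obtain ⟨c, hc, hc'⟩ := h1
      have : c = b := Sum.inl_injective hc'
      subst this
      exact (mem_filter.mp hc).2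
    · split_ifs at h1
      · simp at h1
      · rw [mem_map] at h1
        obtain ⟨c, _, hc'⟩ := h1
        cases hc'
  · intro b hb b' hb' heq
    have h := hpre b hb
    have h' := hpre b' hb'
    simp only [dif_pos h, dif_pos h'] at heq
    have h1 := h.choose_spec
    have h2 := h'.choose_spec
    have h3 : h.choose = h'.choose := Subtype.ext heq
    rw [h3, h2] at h1
    exact (Sum.inl_injective h1).symm
  · intro a ha
    have h1 := hft ⟨a, hA0 ha⟩
    rw [mem_union] at h1
    rcases h1 with h1 | h1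
    · rw [mem_map] at h1
      obtain ⟨c, hc, hc'⟩ := h1
      have hcB := (mem_filter.mp hc).1
      refine ⟨c, hcB, ?_⟩
      have h := hpre c hcB
      simp only [dif_pos h]
      have h2 := h.choose_spec
      have h3 : h.choose = ⟨a, hA0 ha⟩ := hf (by rw [h2]; exact hc')
      rw [h3]
    · rw [if_pos ha] at h1
      simp at h1

/-! ## Fragmentations -/

/-- `S` separates the disjoint odd sets of `XX` -/
def Frag {V : Type u} [Fintype V] (F : SimpleGraph V) (U L S : Finset V)
    (XX : Finset (Finset V)) : Prop :=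
  S ⊆ U ∧ (∀ X ∈ XX, X ⊆ L ∧ Odd X.card ∧ Disjoint X S ∧ ∀ x ∈ X, nb F x ∩ U ⊆ X ∪ S) ∧
    ∀ X ∈ XX, ∀ Y ∈ XX, X ≠ Y → Disjoint X Y

section frag
variable {V : Type u} [Fintype V] {F : SimpleGraph V} {U L S : Finset V}
  {XX : Finset (Finset V)}

/-- `(S, XX)` is extremal -/
def Extr (F : SimpleGraph V) (U L S : Finset V) (XX : Finset (Finset V)) : Prop :=
  ∀ S' XX', Frag F U L S' XX' → XX'.card + S.card ≤ XX.card + S'.card ∧
    (XX'.card + S.card = XX.card + S'.card → S'.card ≤ S.card)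

theorem exists_extr (F : SimpleGraph V) (U L : Finset V) :
    ∃ S XX, Frag F U L S XX ∧ Extr F U L S XX := by
  have hne : ((univ : Finset (Finset V × Finset (Finset V))).filter
      (fun p => Frag F U L p.1 p.2)).Nonempty := by
    refine ⟨(∅, ∅), ?_⟩
    rw [mem_filter]
    exact ⟨mem_univ _, empty_subset _, by simp, by simp⟩
  obtain ⟨⟨S, XX⟩, h1, h2⟩ := Finset.exists_max_image _
    (fun p : Finset V × Finset (Finset V) => ((p.2.card : ℤ) - p.1.card) *
      ((Fintype.card V : ℤ) + 1) + p.1.card) hne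
  rw [mem_filter] at h1
  refine ⟨S, XX, h1.2, ?_⟩
  intro S' XX' hF
  have h3 := h2 (S', XX') (mem_filter.mpr ⟨mem_univ _, hF⟩)
  simp only at h3
  have hS : S.card ≤ Fintype.card V := card_le_univ S
  have hS' : S'.card ≤ Fintype.card V := card_le_univ S'
  zify at hS hS' ⊢
  have hle : ((XX'.card : ℤ) - S'.card) ≤ (XX.card : ℤ) - S.card := by
    by_contra hlt
    push Not at hlt
    have h4 : ((XX.card : ℤ) - S.card) + 1 ≤ (XX'.card : ℤ) - S'.card := by omega
    have h5 : (((XX.card : ℤ) - S.card) + 1) * ((Fintype.card V : ℤ) + 1)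
        ≤ ((XX'.card : ℤ) - S'.card) * ((Fintype.card V : ℤ) + 1) :=
      mul_le_mul_of_nonneg_right h4 (by positivity)
    nlinarith
  refine ⟨by linarith, ?_⟩
  intro heq
  have h4 : ((XX'.card : ℤ) - S'.card) = (XX.card : ℤ) - S.card := by linarith
  rw [h4] at h3
  linarith

theorem mem_of_adj (hF : Frag F U L S XX) {X : Finset V} (hX : X ∈ XX) {x y : V} (hx : x ∈ X)
    (hy : y ∈ U) (hxy : F.Adj x y) : y ∈ X ∨ y ∈ S := by
  have h1 := (hF.2.1 X hX).2.2.2 x hx (mem_inter.mpr ⟨mem_nb.mpr hxy, hy⟩)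
  rwa [mem_union] at h1

/-- the rest -/
noncomputable def rst (U S : Finset V) (XX : Finset (Finset V)) : Finset V :=
  (U \ S) \ XX.biUnion id

omit [Fintype V] in
theorem mem_rst {x : V} : x ∈ rst U S XX ↔ x ∈ U ∧ x ∉ S ∧ ∀ X ∈ XX, x ∉ X := by
  rw [rst, mem_sdiff, mem_sdiff, mem_biUnion]
  constructor
  · rintro ⟨⟨h1, h2⟩, h3⟩
    exact ⟨h1, h2, fun X hX hx => h3 ⟨X, hX, hx⟩⟩
  · rintro ⟨h1, h2, h3⟩
    exact ⟨⟨h1, h2⟩, fun ⟨X, hX, hx⟩ => h3 X hX hx⟩

theorem match_rst (hF : Frag F U L S XX) (hE : Extr F U L S XX) :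
    ∃ M : SimpleGraph V, M ≤ F ∧ IsMat M ∧ (∀ v w, M.Adj v w → v ∈ rst U S XX) ∧
      ∀ v ∈ L ∩ rst U S XX, (nb M v).Nonempty := by
  by_contra hno
  obtain ⟨T, YY, hT, hcard, hYY, hdisj⟩ := tutte_fam F (rst U S XX) (L ∩ rst U S XX)
    inter_subset_right hno
  have hne : ∀ Y ∈ YY, Y.Nonempty := by
    intro Y hY
    rw [← card_pos]
    exact (hYY Y hY).2.1.pos
  have hXY : ∀ X ∈ XX, ∀ Y ∈ YY, Disjoint X Y := by
    intro X hX Y hY
    rw [disjoint_left]
    intro x hx hy
    have h1 := (hYY Y hY).1 hy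
    rw [mem_inter, mem_rst] at h1
    exact h1.2.2.2 X hX hx
  have hXT : ∀ X ∈ XX, Disjoint X T := by
    intro X hX
    rw [disjoint_left]
    intro x hx hy
    have h1 := hT hy
    rw [mem_rst] at h1
    exact h1.2.2 X hX hx
  have hST : Disjoint S T := by
    rw [disjoint_left]
    intro x hx hy
    have h1 := hT hy
    rw [mem_rst] at h1
    exact h1.2.1 hx
  have hXXYY : Disjoint XX YY := by
    rw [disjoint_left]
    intro X hX hX'
    have h1 := hXY X hX X hX'
    rw [disjoint_self] at h1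
    have h2 := hne X hX'
    rw [h1] at h2
    exact absurd h2 (by simp)
  have hFr : Frag F U L (S ∪ T) (XX ∪ YY) := by
    refine ⟨?_, ?_, ?_⟩
    · apply union_subset hF.1
      intro x hx
      exact (mem_rst.mp (hT hx)).1
    · intro X hX
      rw [mem_union] at hX
      rcases hX with hX | hX
      · obtain ⟨h1, h2, h3, h4⟩ := hF.2.1 X hX
        refine ⟨h1, h2, ?_, ?_⟩
        · rw [disjoint_union_right]
          exact ⟨h3, hXT X hX⟩
        · intro x hx
          refine (h4 x hx).trans ?_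
          exact union_subset_union (Finset.Subset.refl _) subset_union_left
      · obtain ⟨h1, h2, h3, h4⟩ := hYY X hX
        refine ⟨h1.trans inter_subset_left, h2, ?_, ?_⟩
        · rw [disjoint_union_right]
          refine ⟨?_, h3⟩
          rw [disjoint_left]
          intro x hx hxS
          have h5 := h1 hx
          rw [mem_inter, mem_rst] at h5
          exact h5.2.2.1 hxS
        · intro x hx y hy
          rw [mem_inter, mem_nb] at hy
          obtain ⟨hxy, hyU⟩ := hy
          have h5 := h1 hx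
          rw [mem_inter, mem_rst] at h5
          rw [mem_union, mem_union]
          by_cases hyS : y ∈ S
          · exact Or.inr (Or.inl hyS)
          by_cases hyR : y ∈ rst U S XX
          · have h6 := h4 x hx (mem_inter.mpr ⟨mem_nb.mpr hxy, hyR⟩)
            rw [mem_union] at h6
            rcases h6 with h6 | h6
            · exact Or.inl h6
            · exact Or.inr (Or.inr h6)
          · exfalso
            apply hyR
            rw [mem_rst]
            refine ⟨hyU, hyS, ?_⟩
            intro X' hX' hyX'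
            rcases mem_of_adj hF hX' hyX' h5.2.1 hxy.symm with h6 | h6
            · exact h5.2.2.2 X' hX' h6
            · exact h5.2.2.1 h6
    · intro X hX Y hY hXY'
      rw [mem_union] at hX hY
      rcases hX with hX | hX <;> rcases hY with hY | hY
      · exact hF.2.2 X hX Y hY hXY'
      · exact hXY X hX Y hY
      · exact (hXY Y hY X hX).symm
      · exact hdisj X hX Y hY hXY'
  have h1 := (hE _ _ hFr).1
  rw [card_union_of_disjoint hXXYY, card_union_of_disjoint hST] at h1
  omega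

theorem match_erase (hLU : L ⊆ U) (hF : Frag F U L S XX) (hE : Extr F U L S XX)
    {X : Finset V} (hX : X ∈ XX) {v : V} (hv : v ∈ X) :
    ∃ M : SimpleGraph V, M ≤ F ∧ IsMat M ∧ (∀ x w, M.Adj x w → x ∈ X.erase v) ∧
      ∀ x ∈ X.erase v, (nb M x).Nonempty := by
  by_contra hno
  obtain ⟨T, YY, hT, hcard, hYY, hdisj⟩ := tutte_fam F (X.erase v) (X.erase v)
    (Finset.Subset.refl _) hno
  obtain ⟨hXL, hXodd, hXS, hXn⟩ := hF.2.1 X hX
  have hne : ∀ Y ∈ YY, Y.Nonempty := by
    intro Y hY
    rw [← card_pos]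
    exact (hYY Y hY).2.1.pos
  -- a family with two more members than `T`
  obtain ⟨YY', hcard', hYY', hdisj'⟩ : ∃ YY' : Finset (Finset V), T.card + 2 ≤ YY'.card ∧
      (∀ Y ∈ YY', Y ⊆ X.erase v ∧ Odd Y.card ∧ Disjoint Y T ∧
        ∀ x ∈ Y, nb F x ∩ (X.erase v) ⊆ Y ∪ T) ∧
      ∀ Y ∈ YY', ∀ Y' ∈ YY', Y ≠ Y' → Disjoint Y Y' := by
    by_cases h2 : T.card + 2 ≤ YY.card
    · exact ⟨YY, h2, hYY, hdisj⟩
    · have h3 : YY.card = T.card + 1 := by omega
      obtain ⟨R, hR⟩ : ∃ R, R = ((X.erase v) \ T) \ YY.biUnion id := ⟨_, rfl⟩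
      have hmR : ∀ x, x ∈ R ↔ x ∈ X.erase v ∧ x ∉ T ∧ ∀ Y ∈ YY, x ∉ Y := by
        intro x
        rw [hR, mem_sdiff, mem_sdiff, mem_biUnion]
        constructor
        · rintro ⟨⟨h1, h2⟩, h3⟩
          exact ⟨h1, h2, fun Y hY hx => h3 ⟨Y, hY, hx⟩⟩
        · rintro ⟨h1, h2, h3⟩
          exact ⟨⟨h1, h2⟩, fun ⟨Y, hY, hx⟩ => h3 Y hY hx⟩
      have hU : (YY.biUnion id).card = ∑ Y ∈ YY, Y.card := by
        rw [card_biUnion]
        · rfl
        · intro Y hY Y' hY' h
          exact hdisj Y hY Y' hY' h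
      have hUodd : (∑ Y ∈ YY, Y.card) % 2 = YY.card % 2 := by
        have h4 : ∀ (ZZ : Finset (Finset V)), (∀ Y ∈ ZZ, Odd Y.card) →
            (∑ Y ∈ ZZ, Y.card) % 2 = ZZ.card % 2 := by
          intro ZZ
          induction ZZ using Finset.induction_on with
          | empty => intro _; simp
          | insert Y ZZ hY ih =>
            intro h
            rw [sum_insert hY, card_insert_of_notMem hY]
            have h5 := ih (fun Y' hY' => h Y' (mem_insert_of_mem hY'))
            have h6 := h Y (mem_insert_self _ _)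
            rw [Nat.odd_iff] at h6
            omega
        exact h4 YY (fun Y hY => (hYY Y hY).2.1)
      have hsub : YY.biUnion id ⊆ (X.erase v) \ T := by
        intro x hx
        rw [mem_biUnion] at hx
        obtain ⟨Y, hY, hx⟩ := hx
        rw [mem_sdiff]
        exact ⟨(hYY Y hY).1 hx, fun h => disjoint_left.mp (hYY Y hY).2.2.1 hx h⟩
      have hRc : R.card + (YY.biUnion id).card + T.card + 1 = X.card := by
        have h4 : R.card + (YY.biUnion id).card = ((X.erase v) \ T).card := by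
          rw [hR]
          exact card_sdiff_add_card_eq_card hsub
        have h5 : ((X.erase v) \ T).card + T.card = (X.erase v).card :=
          card_sdiff_add_card_eq_card hT
        have h6 := card_erase_add_one hv
        omega
      have hRodd : Odd R.card := by
        rw [Nat.odd_iff] at hXodd ⊢
        rw [hU] at hRc
        omega
      have hRne : R ∉ YY := by
        intro h
        have h4 : R.Nonempty := by
          rw [← card_pos]
          exact hRodd.pos
        obtain ⟨x, hx⟩ := h4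
        exact ((hmR x).mp hx).2.2 R h hx
      refine ⟨insert R YY, ?_, ?_, ?_⟩
      · rw [card_insert_of_notMem hRne]
        omega
      · intro Y hY
        rw [mem_insert] at hY
        rcases hY with rfl | hY
        · refine ⟨fun x hx => ((hmR x).mp hx).1, hRodd, ?_, ?_⟩
          · rw [disjoint_left]
            intro x hx
            exact ((hmR x).mp hx).2.1
          · intro x hx y hy
            rw [mem_inter, mem_nb] at hy
            obtain ⟨hxy, hy⟩ := hy
            have hx' := (hmR x).mp hx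
            rw [mem_union]
            by_cases hyT : y ∈ T
            · exact Or.inr hyT
            · left
              rw [hmR]
              refine ⟨hy, hyT, ?_⟩
              intro Y hY hyY
              have h4 := (hYY Y hY).2.2.2 y hyY (mem_inter.mpr ⟨mem_nb.mpr hxy.symm, hx'.1⟩)
              rw [mem_union] at h4
              rcases h4 with h4 | h4
              · exact hx'.2.2 Y hY h4
              · exact hx'.2.1 h4
        · exact hYY Y hY
      · intro Y hY Y' hY' h
        rw [mem_insert] at hY hY'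
        have hRd : ∀ Z ∈ YY, Disjoint R Z := by
          intro Z hZ
          rw [disjoint_left]
          intro x hx
          exact ((hmR x).mp hx).2.2 Z hZ
        rcases hY with rfl | hY <;> rcases hY' with rfl | hY'
        · exact absurd rfl h
        · exact hRd Y' hY'
        · exact (hRd Y hY).symm
        · exact hdisj Y hY Y' hY' h
  have hne' : ∀ Y ∈ YY', Y.Nonempty := by
    intro Y hY
    rw [← card_pos]
    exact (hYY' Y hY).2.1.pos
  have hvT : v ∉ S ∪ T := by
    rw [mem_union]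
    rintro (h | h)
    · exact disjoint_left.mp hXS hv h
    · exact (mem_erase.mp (hT h)).1 rfl
  have hST : Disjoint S T := by
    rw [disjoint_left]
    intro x hx hx'
    exact disjoint_left.mp hXS (mem_of_mem_erase (hT hx')) hx
  have hYX : ∀ Y ∈ YY', Y ⊆ X := fun Y hY => (hYY' Y hY).1.trans (erase_subset _ _)
  have hdXX : Disjoint (XX.erase X) YY' := by
    rw [disjoint_left]
    intro Z hZ hZ'
    rw [mem_erase] at hZ
    have h1 := hF.2.2 Z hZ.2 X hX hZ.1
    obtain ⟨x, hx⟩ := hne' Z hZ'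
    exact disjoint_left.mp h1 hx (hYX Z hZ' hx)
  have hFr : Frag F U L (insert v (S ∪ T)) (XX.erase X ∪ YY') := by
    refine ⟨?_, ?_, ?_⟩
    · intro x hx
      rw [mem_insert, mem_union] at hx
      rcases hx with rfl | hx | hx
      · exact hLU (hXL hv)
      · exact hF.1 hx
      · exact hLU (hXL (mem_of_mem_erase (hT hx)))
    · intro Z hZ
      rw [mem_union] at hZ
      rcases hZ with hZ | hZ
      · rw [mem_erase] at hZ
        obtain ⟨h1, h2, h3, h4⟩ := hF.2.1 Z hZ.2
        have h5 := hF.2.2 Z hZ.2 X hX hZ.1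
        refine ⟨h1, h2, ?_, ?_⟩
        · rw [disjoint_left]
          intro x hx hx'
          rw [mem_insert, mem_union] at hx'
          rcases hx' with rfl | hx' | hx'
          · exact disjoint_left.mp h5 hx hv
          · exact disjoint_left.mp h3 hx hx'
          · exact disjoint_left.mp h5 hx (mem_of_mem_erase (hT hx'))
        · intro x hx
          refine (h4 x hx).trans ?_
          apply union_subset_union (Finset.Subset.refl _)
          exact (subset_union_left).trans (subset_insert _ _)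
      · obtain ⟨h1, h2, h3, h4⟩ := hYY' Z hZ
        refine ⟨(hYX Z hZ).trans hXL, h2, ?_, ?_⟩
        · rw [disjoint_left]
          intro x hx hx'
          rw [mem_insert, mem_union] at hx'
          rcases hx' with rfl | hx' | hx'
          · exact (mem_erase.mp (h1 hx)).1 rfl
          · exact disjoint_left.mp hXS (hYX Z hZ hx) hx'
          · exact disjoint_left.mp h3 hx hx'
        · intro x hx y hy
          rw [mem_inter, mem_nb] at hy
          obtain ⟨hxy, hyU⟩ := hy
          rw [mem_union, mem_insert, mem_union]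
          rcases mem_of_adj hF hX (hYX Z hZ hx) hyU hxy with h5 | h5
          · by_cases hyv : y = v
            · exact Or.inr (Or.inl hyv)
            · have h6 := h4 x hx (mem_inter.mpr ⟨mem_nb.mpr hxy, mem_erase.mpr ⟨hyv, h5⟩⟩)
              rw [mem_union] at h6
              rcases h6 with h6 | h6
              · exact Or.inl h6
              · exact Or.inr (Or.inr (Or.inr h6))
          · exact Or.inr (Or.inr (Or.inl h5))
    · intro Z hZ Z' hZ' h
      rw [mem_union] at hZ hZ'
      have hcross : ∀ A ∈ XX.erase X, ∀ B ∈ YY', Disjoint A B := by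
        intro A hA B hB
        rw [mem_erase] at hA
        exact (hF.2.2 A hA.2 X hX hA.1).mono_right (hYX B hB)
      rcases hZ with hZ | hZ <;> rcases hZ' with hZ' | hZ'
      · exact hF.2.2 Z (mem_of_mem_erase hZ) Z' (mem_of_mem_erase hZ') h
      · exact hcross Z hZ Z' hZ'
      · exact (hcross Z' hZ' Z hZ).symm
      · exact hdisj' Z hZ Z' hZ' h
  have hXc := card_erase_add_one hX
  have hSc : (insert v (S ∪ T)).card = S.card + T.card + 1 := by
    rw [card_insert_of_notMem hvT, card_union_of_disjoint hST]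
  have hUc : (XX.erase X ∪ YY').card = (XX.erase X).card + YY'.card :=
    card_union_of_disjoint hdXX
  obtain ⟨h1, h2⟩ := hE _ _ hFr
  rw [hSc, hUc] at h1 h2
  have h3 := h2 (by omega)
  omega

theorem hall_S (hF : Frag F U L S XX) (hE : Extr F U L S XX) (S' : Finset V) (hS' : S' ⊆ S) :
    S'.card ≤ (XX.filter (fun X => ∃ s ∈ S', ∃ x ∈ X, F.Adj s x)).card := by
  have hFr : Frag F U L (S \ S') (XX.filter (fun X => ¬ ∃ s ∈ S', ∃ x ∈ X, F.Adj s x)) := by
    refine ⟨sdiff_subset.trans hF.1, ?_, ?_⟩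
    · intro X hX
      rw [mem_filter] at hX
      obtain ⟨hX, hn⟩ := hX
      obtain ⟨h1, h2, h3, h4⟩ := hF.2.1 X hX
      refine ⟨h1, h2, h3.mono_right sdiff_subset, ?_⟩
      intro x hx y hy
      have h5 := h4 x hx hy
      rw [mem_inter, mem_nb] at hy
      rw [mem_union] at h5 ⊢
      rcases h5 with h5 | h5
      · exact Or.inl h5
      · right
        rw [mem_sdiff]
        exact ⟨h5, fun h6 => hn ⟨y, h6, x, hx, hy.1.symm⟩⟩
    · intro X hX Y hY
      exact hF.2.2 X (mem_of_mem_filter _ hX) Y (mem_of_mem_filter _ hY)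
  have h1 := (hE _ _ hFr).1
  have h2 : (XX.filter (fun X => ∃ s ∈ S', ∃ x ∈ X, F.Adj s x)).card +
      (XX.filter (fun X => ¬ ∃ s ∈ S', ∃ x ∈ X, F.Adj s x)).card = XX.card :=
    card_filter_add_card_filter_not _
  have h3 : (S \ S').card + S'.card = S.card := card_sdiff_add_card_eq_card hS'
  omega

theorem even_of_mat (M : SimpleGraph V) (hM : IsMat M) (A : Finset V)
    (h1 : ∀ x ∈ A, (nb M x).Nonempty) (h2 : ∀ x ∈ A, ∀ y, M.Adj x y → y ∈ A) :
    Even A.card := by
  let M' : SimpleGraph V :=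
    { Adj := fun x y => M.Adj x y ∧ x ∈ A ∧ y ∈ A
      symm := ⟨by
        rintro x y ⟨h1, h2, h3⟩
        exact ⟨h1.symm, h3, h2⟩⟩
      loopless := ⟨by
        rintro x ⟨h, _, _⟩
        exact M.loopless.irrefl x h⟩ }
  have hdeg : ∀ x, M'.degree x = if x ∈ A then 1 else 0 := by
    intro x
    rw [← SimpleGraph.card_neighborFinset_eq_degree]
    split_ifs with hx
    · have h3 : M'.neighborFinset x = nb M x := by
        ext y
        rw [SimpleGraph.mem_neighborFinset, mem_nb]
        exact ⟨fun h => h.1, fun h => ⟨h, hx, h2 x hx y h⟩⟩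
      rw [h3]
      have h4 := hM x
      have h5 := (h1 x hx).card_pos
      omega
    · rw [card_eq_zero, eq_empty_iff_forall_notMem]
      intro y hy
      rw [SimpleGraph.mem_neighborFinset] at hy
      exact hx hy.2.1
  have h3 := M'.sum_degrees_eq_twice_card_edges
  simp only [hdeg] at h3
  rw [sum_ite_mem, univ_inter, sum_const, smul_eq_mul, mul_one] at h3
  rw [h3]
  exact even_two_mul _

theorem conn_of_extr (hLU : L ⊆ U) (hF : Frag F U L S XX) (hE : Extr F U L S XX)
    {X : Finset V} (hX : X ∈ XX) : Conn F X := by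
  have key : ∀ E ⊆ X, E.Nonempty → Even E.card → ∃ v ∈ E, ∃ w ∈ X, w ∉ E ∧ F.Adj v w := by
    intro E hEX hEn hEe
    by_contra hno
    push Not at hno
    obtain ⟨v, hv⟩ := hEn
    obtain ⟨M, hMF, hM, hMX, hMc⟩ := match_erase hLU hF hE hX (hEX hv)
    have h1 := even_of_mat M hM (E.erase v) (fun x hx => hMc x
        (mem_erase.mpr ⟨(mem_erase.mp hx).1, hEX (mem_of_mem_erase hx)⟩))
      (by
        intro x hx y hxy
        have h2 := hMX y x hxy.symm
        rw [mem_erase] at h2 hx ⊢
        refine ⟨h2.1, ?_⟩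
        by_contra hy
        exact hno x hx.2 y h2.2 hy (hMF hxy))
    have h2 := card_erase_add_one hv
    rw [Nat.even_iff] at h1 hEe
    omega
  intro C1 hC1 hne hneq
  have hXodd := (hF.2.1 X hX).2.1
  have hc : (X \ C1).card + C1.card = X.card := card_sdiff_add_card_eq_card hC1
  by_cases he : Even C1.card
  · exact key C1 hC1 hne he
  · have he' : Even (X \ C1).card := by
      rw [Nat.odd_iff] at hXodd
      rw [Nat.even_iff] at he ⊢
      omega
    have hne' : (X \ C1).Nonempty := by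
      rw [sdiff_nonempty]
      intro h
      exact hneq (Finset.Subset.antisymm hC1 h)
    obtain ⟨v, hv, w, hw, hw', hvw⟩ := key (X \ C1) sdiff_subset hne' he'
    rw [mem_sdiff] at hv
    have hwC : w ∈ C1 := by
      by_contra h
      exact hw' (mem_sdiff.mpr ⟨hw, h⟩)
    exact ⟨w, hwC, v, hv.1, hv.2, hvw.symm⟩

end frag

/-- **GE lemma.** -/
theorem ge {V : Type u} [Fintype V] (F : SimpleGraph V) (U L : Finset V) (hLU : L ⊆ U)
    (Crit : Finset V → Prop)
    (hNC : ∀ (S : Finset V) (XX : Finset (Finset V)), Frag F U L S XX →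
      (∀ X ∈ XX, Conn F X ∧ ¬ Crit X) → (∀ s ∈ S, ∃ X ∈ XX, ∃ x ∈ X, F.Adj s x) →
      XX.card ≤ S.card) :
    ∃ (S : Finset V) (KK : Finset (Finset V)), Frag F U L S KK ∧
      (∀ K ∈ KK, Crit K ∧ Conn F K) ∧
      (∀ s ∈ S, ∃ y ∈ U, y ∉ S ∧ (∀ K ∈ KK, y ∉ K) ∧ F.Adj s y) ∧
      ∀ w : Finset V → V, (∀ K ∈ KK, w K ∈ K) →
        ∃ M : SimpleGraph V, M ≤ F ∧ IsMat M ∧ (∀ v u, M.Adj v u → v ∈ U) ∧
          (∀ v ∈ L, (∀ K ∈ KK, v ≠ w K) → (nb M v).Nonempty) ∧
          ∀ K ∈ KK, nb M (w K) = ∅ := by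
  obtain ⟨S, XX, hF, hE⟩ := exists_extr F U L
  obtain ⟨M0, hM0F, hM0, hM0r, hM0c⟩ := match_rst hF hE
  obtain ⟨f, hf1, hf2, hf3⟩ := md XX (XX.filter (fun X => ¬ Crit X)) S
    (fun s X => ∃ x ∈ X, F.Adj s x) (filter_subset _ _)
    (by
      intro S' hS'
      convert hall_S hF hE S' hS') (by
      intro A' hA'
      have hsub : A' ⊆ XX := hA'.trans (filter_subset _ _)
      suffices hsuff : A'.card ≤ (S.filter (fun s => ∃ X ∈ A', ∃ x ∈ X, F.Adj s x)).card by
        convert hsuff
      apply hNC (S.filter (fun s => ∃ X ∈ A', ∃ x ∈ X, F.Adj s x)) A'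
      · refine ⟨(filter_subset _ _).trans hF.1, ?_, ?_⟩
        · intro X hX
          obtain ⟨h1, h2, h3, h4⟩ := hF.2.1 X (hsub hX)
          refine ⟨h1, h2, h3.mono_right (filter_subset _ _), ?_⟩
          intro x hx y hy
          have h5 := h4 x hx hy
          rw [mem_inter, mem_nb] at hy
          rw [mem_union] at h5 ⊢
          rcases h5 with h5 | h5
          · exact Or.inl h5
          · right
            rw [mem_filter]
            exact ⟨h5, X, hX, x, hx, hy.1.symm⟩
        · intro X hX Y hY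
          exact hF.2.2 X (hsub hX) Y (hsub hY)
      · intro X hX
        exact ⟨conn_of_extr hLU hF hE (hsub hX), (mem_filter.mp (hA' hX)).2⟩
      · intro s hs
        exact (mem_filter.mp hs).2)
  obtain ⟨KK, hKK⟩ : ∃ KK, KK = XX.filter (fun X => ∀ s ∈ S, f s ≠ X) := ⟨_, rfl⟩
  have hKX : ∀ K ∈ KK, K ∈ XX ∧ ∀ s ∈ S, f s ≠ K := by
    intro K hK
    rw [hKK, mem_filter] at hK
    exact hK
  have hx : ∀ s : V, ∃ x : V, s ∈ S → x ∈ f s ∧ F.Adj s x := by
    intro s
    by_cases hs : s ∈ S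
    · obtain ⟨x, hx, hsx⟩ := (hf1 s hs).2
      exact ⟨x, fun _ => ⟨hx, hsx⟩⟩
    · exact ⟨s, fun h => absurd h hs⟩
  choose x hx using hx
  have hdis : ∀ X ∈ XX, ∀ Y ∈ XX, ∀ z, z ∈ X → z ∈ Y → X = Y := by
    intro X hX Y hY z hz hz'
    by_contra hne
    exact disjoint_left.mp (hF.2.2 X hX Y hY hne) hz hz'
  have hXS : ∀ X ∈ XX, ∀ z ∈ X, z ∉ S := fun X hX z hz =>
    disjoint_left.mp (hF.2.1 X hX).2.2.1 hz
  refine ⟨S, KK, ?_, ?_, ?_, ?_⟩
  · refine ⟨hF.1, ?_, ?_⟩
    · intro X hX
      exact hF.2.1 X (hKX X hX).1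
    · intro X hX Y hY
      exact hF.2.2 X (hKX X hX).1 Y (hKX Y hY).1
  · intro K hK
    obtain ⟨h1, h2⟩ := hKX K hK
    refine ⟨?_, conn_of_extr hLU hF hE h1⟩
    by_contra hcr
    obtain ⟨s, hs, hs'⟩ := hf3 K (mem_filter.mpr ⟨h1, hcr⟩)
    exact h2 s hs hs'
  · intro s hs
    obtain ⟨h1, h2⟩ := hx s hs
    have h3 := (hf1 s hs).1
    refine ⟨x s, hLU ((hF.2.1 _ h3).1 h1), hXS _ h3 _ h1, ?_, h2⟩
    intro K hK hxK
    obtain ⟨h4, h5⟩ := hKX K hK
    exact h5 s hs (hdis _ h3 _ h4 _ h1 hxK)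
  · intro w hw
    have hvv : ∀ X : Finset V, ∃ z : V, X ∈ XX → z ∈ X ∧ (∀ s ∈ S, f s = X → z = x s) ∧
        (X ∈ KK → z = w X) := by
      intro X
      by_cases h : ∃ s ∈ S, f s = X
      · obtain ⟨s, hs, hsX⟩ := h
        refine ⟨x s, fun hX => ⟨?_, ?_, ?_⟩⟩
        · rw [← hsX]
          exact (hx s hs).1
        · intro s' hs' hsX'
          rw [hf2 s hs s' hs' (hsX.trans hsX'.symm)]
        · intro hK
          exact absurd hsX ((hKX X hK).2 s hs)
      · by_cases hX : X ∈ XX
        · have hK : X ∈ KK := by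
            rw [hKK, mem_filter]
            exact ⟨hX, fun s hs hsX => h ⟨s, hs, hsX⟩⟩
          refine ⟨w X, fun _ => ⟨hw X hK, ?_, fun _ => rfl⟩⟩
          intro s hs hsX
          exact absurd ⟨s, hs, hsX⟩ h
        · exact ⟨w X, fun hX' => absurd hX' hX⟩
    choose vv hvv using hvv
    have hP : ∀ X : Finset V, ∃ M : SimpleGraph V, X ∈ XX → M ≤ F ∧ IsMat M ∧
        (∀ a b, M.Adj a b → a ∈ X.erase (vv X)) ∧ ∀ a ∈ X.erase (vv X), (nb M a).Nonempty := by
      intro X
      by_cases hX : X ∈ XX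
      · obtain ⟨M, hM⟩ := match_erase hLU hF hE hX (hvv X hX).1
        exact ⟨M, fun _ => hM⟩
      · exact ⟨⊥, fun h => absurd h hX⟩
    choose P hP using hP
    let M : SimpleGraph V :=
      { Adj := fun a b => M0.Adj a b ∨ (∃ X ∈ XX, (P X).Adj a b) ∨
          ∃ s ∈ S, (a = s ∧ b = x s) ∨ (b = s ∧ a = x s)
        symm := ⟨by
          rintro a b (h | ⟨X, hX, h⟩ | ⟨s, hs, h | h⟩)
          · exact Or.inl h.symm
          · exact Or.inr (Or.inl ⟨X, hX, h.symm⟩)
          · exact Or.inr (Or.inr ⟨s, hs, Or.inr h⟩)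
          · exact Or.inr (Or.inr ⟨s, hs, Or.inl h⟩)⟩
        loopless := ⟨by
          rintro a (h | ⟨X, hX, h⟩ | ⟨s, hs, ⟨h1, h2⟩ | ⟨h1, h2⟩⟩)
          · exact M0.loopless.irrefl a h
          · exact (P X).loopless.irrefl a h
          · have h3 := (hx s hs).2
            rw [← h2, ← h1] at h3
            exact F.loopless.irrefl a h3
          · have h3 := (hx s hs).2
            rw [← h2, ← h1] at h3
            exact F.loopless.irrefl a h3⟩ }
    have hMadj : ∀ a b, M.Adj a b ↔ M0.Adj a b ∨ (∃ X ∈ XX, (P X).Adj a b) ∨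
        ∃ s ∈ S, (a = s ∧ b = x s) ∨ (b = s ∧ a = x s) := fun a b => Iff.rfl
    have hxX : ∀ s ∈ S, f s ∈ XX ∧ x s ∈ f s ∧ vv (f s) = x s := by
      intro s hs
      have h1 := (hf1 s hs).1
      exact ⟨h1, (hx s hs).1, (hvv _ h1).2.1 s hs rfl⟩
    have e12 : ∀ a, a ∈ rst U S XX → ∀ X ∈ XX, a ∈ X → False := by
      intro a ha X hX haX
      exact (mem_rst.mp ha).2.2 X hX haX
    have e13 : ∀ a, a ∈ rst U S XX → a ∉ S := fun a ha => (mem_rst.mp ha).2.1
    have e2 : ∀ X ∈ XX, ∀ a ∈ X.erase (vv X), ∀ s ∈ S, a ≠ x s := by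
      intro X hX a ha s hs hax
      obtain ⟨h1, h2, h3⟩ := hxX s hs
      rw [mem_erase] at ha
      rw [hax] at ha
      have h4 := hdis _ hX _ h1 _ ha.2 h2
      rw [h4, h3] at ha
      exact ha.1 rfl
    have e3 : ∀ s ∈ S, ∀ s' ∈ S, x s = x s' → s = s' := by
      intro s hs s' hs' h
      obtain ⟨h1, h2, _⟩ := hxX s hs
      obtain ⟨h3, h4, _⟩ := hxX s' hs'
      rw [← h] at h4
      exact hf2 s hs s' hs' (hdis _ h1 _ h3 _ h2 h4)
    have e4 : ∀ s ∈ S, x s ∉ S := by
      intro s hs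
      obtain ⟨h1, h2, _⟩ := hxX s hs
      exact hXS _ h1 _ h2
    have huniq : ∀ (N : SimpleGraph V), IsMat N → ∀ a b c, N.Adj a b → N.Adj a c → b = c := by
      intro N hN a b c hb hc
      exact (card_le_one.mp (hN a)) b (mem_nb.mpr hb) c (mem_nb.mpr hc)
    refine ⟨M, ?_, ?_, ?_, ?_, ?_⟩
    · intro a b hab
      rcases (hMadj a b).mp hab with h | ⟨X, hX, h⟩ | ⟨s, hs, ⟨rfl, rfl⟩ | ⟨rfl, rfl⟩⟩
      · exact hM0F h
      · exact (hP X hX).1 h
      · exact (hx _ hs).2
      · exact (hx _ hs).2.symm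
    · intro a
      rw [card_le_one]
      intro b hb c hc
      rw [mem_nb, hMadj] at hb hc
      rcases hb with hb | ⟨X, hX, hb⟩ | ⟨s, hs, ⟨hb1, hb2⟩ | ⟨hb1, hb2⟩⟩ <;>
        rcases hc with hc | ⟨Y, hY, hc⟩ | ⟨t, ht, ⟨hc1, hc2⟩ | ⟨hc1, hc2⟩⟩
      · exact huniq M0 hM0 a b c hb hc
      · exact (e12 a (hM0r a b hb) Y hY (mem_of_mem_erase ((hP Y hY).2.2.1 a c hc))).elim
      · exact absurd (hc1 ▸ ht) (e13 a (hM0r a b hb))
      · exact (e12 a (hM0r a b hb) _ (hxX t ht).1 (hc2 ▸ (hxX t ht).2.1)).elim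
      · exact (e12 a (hM0r a c hc) X hX (mem_of_mem_erase ((hP X hX).2.2.1 a b hb))).elim
      · have h1 := (hP X hX).2.2.1 a b hb
        have h2 := (hP Y hY).2.2.1 a c hc
        have h3 := hdis X hX Y hY a (mem_of_mem_erase h1) (mem_of_mem_erase h2)
        subst h3
        exact huniq (P X) (hP X hX).2.1 a b c hb hc
      · have h1 := (hP X hX).2.2.1 a b hb
        exact absurd (hc1 ▸ ht) (hXS X hX a (mem_of_mem_erase h1))
      · exact absurd hc2 (e2 X hX a ((hP X hX).2.2.1 a b hb) t ht)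
      · exact absurd (hb1 ▸ hs) (e13 a (hM0r a c hc))
      · have h1 := (hP Y hY).2.2.1 a c hc
        exact absurd (hb1 ▸ hs) (hXS Y hY a (mem_of_mem_erase h1))
      · rw [hb2, hc2, ← hb1, ← hc1]
      · exact absurd (hb1 ▸ hs) (hc2 ▸ e4 t ht)
      · exact (e12 a (hM0r a c hc) _ (hxX s hs).1 (hb2 ▸ (hxX s hs).2.1)).elim
      · exact absurd hb2 (e2 Y hY a ((hP Y hY).2.2.1 a c hc) s hs)
      · exact absurd (hc1 ▸ ht) (hb2 ▸ e4 s hs)
      · rw [hb1, hc1]
        exact e3 s hs t ht (hb2.symm.trans hc2)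
    · intro a b hab
      rcases (hMadj a b).mp hab with h | ⟨X, hX, h⟩ | ⟨s, hs, ⟨rfl, rfl⟩ | ⟨rfl, rfl⟩⟩
      · exact (mem_rst.mp (hM0r a b h)).1
      · exact hLU ((hF.2.1 X hX).1 (mem_of_mem_erase ((hP X hX).2.2.1 a b h)))
      · exact hF.1 hs
      · obtain ⟨h1, h2, _⟩ := hxX _ hs
        exact hLU ((hF.2.1 _ h1).1 h2)
    · intro a ha hne
      by_cases haS : a ∈ S
      · exact ⟨x a, mem_nb.mpr ((hMadj _ _).mpr (Or.inr (Or.inr ⟨a, haS, Or.inl ⟨rfl, rfl⟩⟩)))⟩
      by_cases haX : ∃ X ∈ XX, a ∈ X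
      · obtain ⟨X, hX, haX⟩ := haX
        by_cases hav : a = vv X
        · by_cases h : ∃ s ∈ S, f s = X
          · obtain ⟨s, hs, hsX⟩ := h
            have h1 := (hvv X hX).2.1 s hs hsX
            refine ⟨s, mem_nb.mpr ((hMadj _ _).mpr (Or.inr (Or.inr ⟨s, hs, Or.inr ⟨rfl, ?_⟩⟩)))⟩
            rw [hav, h1]
          · exfalso
            have hK : X ∈ KK := by
              rw [hKK, mem_filter]
              exact ⟨hX, fun s hs hsX => h ⟨s, hs, hsX⟩⟩
            exact hne X hK (hav.trans ((hvv X hX).2.2 hK))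
        · obtain ⟨b, hb⟩ := (hP X hX).2.2.2 a (mem_erase.mpr ⟨hav, haX⟩)
          rw [mem_nb] at hb
          exact ⟨b, mem_nb.mpr ((hMadj _ _).mpr (Or.inr (Or.inl ⟨X, hX, hb⟩)))⟩
      · push Not at haX
        have h1 : a ∈ rst U S XX := mem_rst.mpr ⟨hLU ha, haS, haX⟩
        obtain ⟨b, hb⟩ := hM0c a (mem_inter.mpr ⟨ha, h1⟩)
        rw [mem_nb] at hb
        exact ⟨b, mem_nb.mpr ((hMadj _ _).mpr (Or.inl hb))⟩
    · intro K hK
      rw [eq_empty_iff_forall_notMem]
      intro b hb
      obtain ⟨hKX1, hKX2⟩ := hKX K hK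
      have hwK := hw K hK
      rw [mem_nb, hMadj] at hb
      rcases hb with hb | ⟨X, hX, hb⟩ | ⟨s, hs, ⟨hb1, hb2⟩ | ⟨hb1, hb2⟩⟩
      · exact e12 _ (hM0r _ b hb) K hKX1 hwK
      · have h1 := (hP X hX).2.2.1 _ b hb
        have h2 := hdis X hX K hKX1 _ (mem_of_mem_erase h1) hwK
        subst h2
        rw [mem_erase] at h1
        exact h1.1 ((hvv X hX).2.2 hK).symm
      · exact hXS K hKX1 _ hwK (hb1 ▸ hs)
      · obtain ⟨h1, h2, _⟩ := hxX s hs
        rw [← hb2] at h2
        exact hKX2 s hs (hdis _ h1 _ hKX1 _ h2 hwK)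

end Pool.Agent.Work.MP_db9399_ge.helper75
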